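import Pool.Agent.Lib.MP_60c5b4_pr.G.Main

/-!
Q1 of MP_60c5b4_pr has a negative answer, against the massive field itself: for a bounded
continuous drift that is not identically zero, the scaling limit of the centred near-critical dimer
height function is mutually singular with the Dirichlet Gaussian free field of any mass, in any
normalisation and with any deterministic mean.
-/

namespace Pool.Agent.Results.MP_60c5b4_pr.HeightGFF

open Pool.Agent.Lib.MP_60c5b4_pr Pool.Agent.Lib.MP_60c5b4_pr.H Pool.Agent.Lib.MP_60c5b4_pr.G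
  MeasureTheory

theorem result (Ω : Set ℂ) (hΩ : IsOpen Ω) (hΩb : Bornology.IsBounded Ω) (Δ : ℂ → ℂ)
    (hΔ : ContinuousOn Δ Ω) (hΔb : ∃ M, ∀ z ∈ Ω, ‖Δ z‖ ≤ M) (hΔ0 : ∃ z ∈ Ω, Δ z ≠ 0)
    (c : ℂ → Fin 3 → ℝ) (hc : ∀ z ∈ Ω, c z 0 + c z 1 + c z 2 = 0 ∧
      Δ z = (c z 0 + c z 1 * tau + c z 2 * tau ^ 2) / 3)
    (δ : ℕ → ℝ) (V : ℕ → Finset Pt) (f : ℕ → Pt) (hA : Approximates Ω δ V)
    (hS : ∀ n, SimplyConn (V n) ∧ IsRoot (V n) (f n)) (lam : ℝ) (hlam : lam ≠ 0)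
    (S : Type) [MeasurableSpace S] (ev : (ℂ → ℝ) → S → ℝ)
    (hev : ∀ φ, IsTest Ω φ → Measurable (ev φ)) (μ ν : Measure S)
    (hμ : HeightLimit Ω lam c δ V f ev μ) (κ m : ℝ) (hκ : 0 < κ) (a : (ℂ → ℝ) → ℝ)
    (hν : IsGFF Ω κ m a ev ν) :
    μ.MutuallySingular ν ∧ ¬ μ.AbsolutelyContinuous ν := by
  have h := singular hΩb hκ hν hev hμ
    (key_drift hΩ hΩb hΔ hΔb hΔ0 hc hA hS (limit.ex Ω lam c δ V f S ev μ hμ) hlam)
  have := hμ.1
  exact ⟨h, fun hac => IsProbabilityMeasure.ne_zero μ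
    (Measure.eq_zero_of_absolutelyContinuous_of_mutuallySingular hac h)⟩

end Pool.Agent.Results.MP_60c5b4_pr.HeightGFF
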