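import Pool.Agent.Lib.MP_60c5b4_pr.H.Main

/-!
Q1 of MP_60c5b4_pr has a negative answer: for a bounded continuous drift that is not identically
zero, the scaling limit of the centred near-critical dimer height function and the scaling limit
for zero drift (the Gaussian free field) have mutually singular laws.
-/

namespace Pool.Agent.Results.MP_60c5b4_pr.HeightSingular

open Pool.Agent.Lib.MP_60c5b4_pr Pool.Agent.Lib.MP_60c5b4_pr.H MeasureTheory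

theorem result (Ω : Set ℂ) (hΩ : IsOpen Ω) (hΩb : Bornology.IsBounded Ω) (Δ : ℂ → ℂ)
    (hΔ : ContinuousOn Δ Ω) (hΔb : ∃ M, ∀ z ∈ Ω, ‖Δ z‖ ≤ M) (hΔ0 : ∃ z ∈ Ω, Δ z ≠ 0)
    (c : ℂ → Fin 3 → ℝ) (hc : ∀ z ∈ Ω, c z 0 + c z 1 + c z 2 = 0 ∧
      Δ z = (c z 0 + c z 1 * tau + c z 2 * tau ^ 2) / 3)
    (δ δ' : ℕ → ℝ) (V V' : ℕ → Finset Pt) (f f' : ℕ → Pt)
    (hA : Approximates Ω δ V) (hA' : Approximates Ω δ' V')
    (hS : ∀ n, SimplyConn (V n) ∧ IsRoot (V n) (f n))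
    (hS' : ∀ n, SimplyConn (V' n) ∧ IsRoot (V' n) (f' n)) (lam : ℝ) (hlam : lam ≠ 0)
    (S : Type) [MeasurableSpace S] (ev : (ℂ → ℝ) → S → ℝ)
    (hev : ∀ φ, IsTest Ω φ → Measurable (ev φ)) (μ ν : Measure S)
    (hμ : HeightLimit Ω lam c δ V f ev μ) (hν : HeightLimit Ω lam (fun _ _ => 0) δ' V' f' ev ν) :
    μ.MutuallySingular ν ∧ ¬ μ.AbsolutelyContinuous ν :=
  limit.sing Ω lam c _ δ δ' V V' f f' S ev μ ν hev hμ hν
    (key_all Ω hΩ hΩb Δ hΔ hΔb hΔ0 c hc δ δ' V V' f f' hA hA' hS hS'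
      (limit.ex Ω lam c δ V f S ev μ hμ) (limit.ex Ω lam _ δ' V' f' S ev ν hν) lam hlam)

end Pool.Agent.Results.MP_60c5b4_pr.HeightSingular
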