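import Pool.Agent.Lib.MP_60c5b4_pr.Final

/-!
Q2 of MP_60c5b4_pr has a negative answer: for a bounded continuous drift that is not identically
zero, the scaling limit of the near-critical tree and the scaling limit of the uniform tree have
mutually singular laws.
-/

namespace Pool.Agent.Results.MP_60c5b4_pr.TreeSingular

open Pool.Agent.Lib.MP_60c5b4_pr

theorem result (Ω : Set ℂ) (hΩ : IsOpen Ω) (hΩb : Bornology.IsBounded Ω) (Δ : ℂ → ℂ)
    (hΔ : ContinuousOn Δ Ω) (hΔb : ∃ M, ∀ z ∈ Ω, ‖Δ z‖ ≤ M) (hΔ0 : ∃ z ∈ Ω, Δ z ≠ 0)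
    (c : ℂ → Fin 3 → ℝ) (hc : ∀ z ∈ Ω, c z 0 + c z 1 + c z 2 = 0 ∧
      Δ z = (c z 0 + c z 1 * tau + c z 2 * tau ^ 2) / 3)
    (δ δ' : ℕ → ℝ) (V V' : ℕ → Finset Pt) (hV : ∀ n, (V n).Nonempty)
    (hV' : ∀ n, (V' n).Nonempty) (hA : Approximates Ω δ V) (hA' : Approximates Ω δ' V') :
    (∀ wired : Prop, SingularLimits c δ δ' V V' (fun n => schramm wired (δ n) (V n) (hV n))
      fun n => schramm wired (δ' n) (V' n) (hV' n)) ∧
    SingularLimits c δ δ' V V' (fun n => branches (δ n) (V n) (hV n))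
      fun n => branches (δ' n) (V' n) (hV' n) :=
  main hΩ hΩb hΔ hΔb hΔ0 hc hV hV' hA hA'

end Pool.Agent.Results.MP_60c5b4_pr.TreeSingular
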